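import Mathlib
import Pool.Agent.H686R3.MEmbed

/-!
# `M_{2^ω}` embeds into the lattice of locally closed permutation groups

Identify `X` with the countable set of balls of `ℚ₂`.  For `a ∈ ℚ₂` let `g_a` be the dilation
`x ↦ 2(x - a) + a`.  The groups `⟨g_a⟩` are locally closed, two of them intersect trivially, and
two of them generate the same locally closed group, that of all maps `x ↦ 2^n x + c`, because
`g_a g_b⁻¹` is a nonzero translation and `ℤ[1/2] c` is dense in `ℚ₂` for `c ≠ 0`.
-/

namespace Pool.Agent.Results.MP_626926_al.GroupEmbedding

open Pool.Agent.H686R3

/-- **Q2, positive answer.** For every countably infinite set `X` the lattice `M_{2^ω}` (an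
antichain indexed by `2^ω` together with a least and a greatest element) embeds in the lattice
`Gr_ℓ(X)` of locally closed permutation groups on `X`. -/
theorem result (X : Type*) [Countable X] [Infinite X] :
    ∃ f : LatticeHom (MLat (ℕ → Bool)) (LocalGroup X), Function.Injective f :=
  exists_group_embedding

end Pool.Agent.Results.MP_626926_al.GroupEmbedding
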