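import Mathlib
import Pool.Agent.H686R3.MEmbed

/-!
# `M_{2^ω}` embeds into the lattice of locally closed transformation monoids

Identify `X` with the countable set of balls of `ℚ₂`.  For `a ∈ ℚ₂` let `g_a` be the dilation
`x ↦ 2(x - a) + a`.  The groups `⟨g_a⟩` (viewed as monoids of maps `X → X`) are locally closed, two
of them intersect trivially, and two of them generate the same locally closed monoid, namely the
one generated by all maps `x ↦ 2^n x + c`, because `g_a g_b⁻¹` is a nonzero translation and
`ℤ[1/2] c` is dense in `ℚ₂` for `c ≠ 0`.
-/

namespace Pool.Agent.Results.MP_626926_al.MonoidEmbedding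

open Pool.Agent.H686R3

/-- **Q1, positive answer.** For every countably infinite set `X` the lattice `M_{2^ω}` (an
antichain indexed by `2^ω` together with a least and a greatest element) embeds in the lattice
`Mon_ℓ(X)` of locally closed transformation monoids on `X`. -/
theorem result (X : Type*) [Countable X] [Infinite X] :
    ∃ f : LatticeHom (MLat (ℕ → Bool)) (LocalMonoid X), Function.Injective f :=
  exists_monoid_embedding

end Pool.Agent.Results.MP_626926_al.MonoidEmbedding
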